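import Pool.Agent.Lib.helper10.ChipRed

namespace Pool.Agent.Results.MP_85a811_lc.NPHard

open Pool.Agent.Cx Pool.Agent.Chip

/-- a simple digraph with a terminating chip distribution -/
def Halts (I : List (List ℕ) × List ℕ) : Prop :=
  IsMulti I.1 ∧ IsSimple I.1 ∧ I.2.length = I.1.length ∧ Terminating I.1 (cfg I.2)

theorem result : NPHard (Lang Halts) :=
  (hard_sat.red (r := fun φ => (AA (occ φ) φ.length (size φ), xl (occ φ) φ.length (size φ)))
    (by fun_prop) fun φ => (halt_iff φ).trans
      ⟨fun h => ⟨AA_graph.1, AA_graph.2, xl_length, h⟩, fun h => h.2.2.2⟩).npHard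

end Pool.Agent.Results.MP_85a811_lc.NPHard
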